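import Mathlib

open MeasureTheory Metric Set Filter Topology
open scoped ENNReal NNReal

namespace Pool.Agent.Helper40.Mink

variable {n : ℕ}

/-- Volume bound for separated subsets. -/
theorem card_vol (hn : 0 < n) (K : Set (EuclideanSpace ℝ (Fin n))) {δ : ℝ} (hδ : 0 < δ)
    (S : Finset (EuclideanSpace ℝ (Fin n))) (hS : ∀ x ∈ S, x ∈ K)
    (hsep : ∀ x ∈ S, ∀ y ∈ S, x ≠ y → δ < dist x y) :
    (S.card : ℝ≥0∞) * (ENNReal.ofReal ((δ / 2) ^ n)
      * volume (ball (0 : EuclideanSpace ℝ (Fin n)) 1)) ≤ volume (thickening δ K) := by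
  have : Nonempty (Fin n) := ⟨⟨0, hn⟩⟩
  have h2 : (0 : ℝ) ≤ δ / 2 := by positivity
  have hb : ∀ x ∈ S, volume (ball x (δ / 2)) = ENNReal.ofReal ((δ / 2) ^ n)
      * volume (ball (0 : EuclideanSpace ℝ (Fin n)) 1) := by
    intro x _
    have h := Measure.addHaar_ball (volume : Measure (EuclideanSpace ℝ (Fin n))) x h2
    rw [finrank_euclideanSpace, Fintype.card_fin] at h
    exact h
  have hdis : (↑S : Set (EuclideanSpace ℝ (Fin n))).PairwiseDisjoint (fun x => ball x (δ / 2)) := by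
    intro x hx y hy hxy
    refine ball_disjoint_ball ?_
    have := hsep x hx y hy hxy
    linarith
  calc (S.card : ℝ≥0∞) * (ENNReal.ofReal ((δ / 2) ^ n)
      * volume (ball (0 : EuclideanSpace ℝ (Fin n)) 1))
      = ∑ x ∈ S, volume (ball x (δ / 2)) := by
        rw [Finset.sum_congr rfl hb, Finset.sum_const, nsmul_eq_mul]
    _ = volume (⋃ x ∈ S, ball x (δ / 2)) :=
        (measure_biUnion_finset hdis (fun x _ => measurableSet_ball)).symm
    _ ≤ volume (thickening δ K) := by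
        refine measure_mono ?_
        intro z hz
        rw [mem_iUnion₂] at hz
        obtain ⟨x, hx, hz⟩ := hz
        rw [mem_thickening_iff]
        refine ⟨x, hS x hx, ?_⟩
        rw [mem_ball] at hz
        linarith

/-- A maximal separated subset of a bounded set. -/
theorem exists_net (K : Set (EuclideanSpace ℝ (Fin n))) (hK : Bornology.IsBounded K) {δ : ℝ}
    (hδ : 0 < δ) : ∃ S : Finset (EuclideanSpace ℝ (Fin n)), (∀ x ∈ S, x ∈ K) ∧
      (∀ x ∈ S, ∀ y ∈ S, x ≠ y → δ < dist x y) ∧ K ⊆ ⋃ x ∈ S, closedBall x δ := by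
  have hc : IsCompact (closure K) := hK.isCompact_closure
  set ε : ℝ≥0 := ⟨δ, hδ.le⟩ with hε
  have he2 : ε / 2 ≠ 0 := by
    have : 0 < ε := hδ
    exact (half_pos this).ne'
  have hne : packingNumber ε K ≠ ⊤ := by
    obtain ⟨N, hN, hfin, hcov⟩ := exists_finite_isCover_of_isCompact_closure he2 hc
    have h1 := packingNumber_two_mul_le_externalCoveringNumber (ε / 2) K
    rw [mul_div_cancel₀ ε (two_ne_zero)] at h1
    refine ne_top_of_le_ne_top ?_ (h1.trans (hcov.externalCoveringNumber_le_encard))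
    exact Set.encard_ne_top_iff.mpr hfin
  have hfin : (maximalSeparatedSet ε K).Finite := by
    rw [← Set.encard_ne_top_iff, encard_maximalSeparatedSet hne]
    exact hne
  refine ⟨hfin.toFinset, ?_, ?_, ?_⟩
  · intro x hx
    exact maximalSeparatedSet_subset ((Set.Finite.mem_toFinset hfin).1 hx)
  · intro x hx y hy hxy
    have h := isSeparated_maximalSeparatedSet (ε := ε) (A := K)
      ((Set.Finite.mem_toFinset hfin).1 hx) ((Set.Finite.mem_toFinset hfin).1 hy) hxy
    have h' : (ε : ℝ≥0∞) < edist x y := h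
    rw [edist_dist, ← ENNReal.ofReal_coe_nnreal] at h'
    exact (ENNReal.ofReal_lt_ofReal_iff_of_nonneg hδ.le).1 h'
  · have h := isCover_maximalSeparatedSet hne
    rw [isCover_iff_subset_iUnion_closedBall] at h
    intro z hz
    have := h hz
    rw [mem_iUnion₂] at this ⊢
    obtain ⟨x, hx, hz⟩ := this
    exact ⟨x, (Set.Finite.mem_toFinset hfin).2 hx, hz⟩

theorem ediam_le (x : EuclideanSpace ℝ (Fin n)) {r : ℝ} (hr : 0 ≤ r) :
    ediam (closedBall x r) ≤ ENNReal.ofReal (2 * r) := by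
  rw [← closedEBall_ofReal hr, ENNReal.ofReal_mul (by norm_num), ENNReal.ofReal_ofNat]
  exact ediam_closedEBall_le

/-- The Hausdorff measure is bounded by the volume of thickenings. -/
theorem hm_le (hn : 0 < n) (K : Set (EuclideanSpace ℝ (Fin n))) (hK : Bornology.IsBounded K)
    (d : ℝ) (hd : 0 ≤ d) (δ : ℕ → ℝ) (hδ : ∀ i, 0 < δ i) (h0 : Tendsto δ atTop (𝓝 0))
    (c : ℕ → ℝ) (hc0 : ∀ i, 0 ≤ c i) (hc : Tendsto c atTop (𝓝 0))
    (hv : ∀ i, volume (thickening (δ i) K) ≤ ENNReal.ofReal (c i * (δ i) ^ ((n : ℝ) - d))) :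
    μH[d] K = 0 := by
  have : Nonempty (Fin n) := ⟨⟨0, hn⟩⟩
  choose S hSK hsep hcov using fun i => exists_net K hK (hδ i)
  set v : ℝ := (volume (ball (0 : EuclideanSpace ℝ (Fin n)) 1)).toReal with hvd
  have hvt : volume (ball (0 : EuclideanSpace ℝ (Fin n)) 1) ≠ ⊤ := measure_ball_lt_top.ne
  have hvp : 0 < v := ENNReal.toReal_pos (measure_ball_pos _ _ one_pos).ne' hvt
  -- cardinality
  have hcard : ∀ i, ((S i).card : ℝ) * (δ i) ^ d ≤ (2 ^ n / v) * c i := by
    intro i
    have h := (card_vol hn K (hδ i) (S i) (hSK i) (hsep i)).trans (hv i)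
    have hr : ((S i).card : ℝ) * ((δ i / 2) ^ n * v) ≤ c i * (δ i) ^ ((n : ℝ) - d) := by
      have hne : ENNReal.ofReal (c i * (δ i) ^ ((n : ℝ) - d)) ≠ ⊤ := ENNReal.ofReal_ne_top
      have h' := ENNReal.toReal_mono hne h
      rw [ENNReal.toReal_mul, ENNReal.toReal_mul, ENNReal.toReal_natCast,
        ENNReal.toReal_ofReal (by have := hδ i; positivity),
        ENNReal.toReal_ofReal (mul_nonneg (hc0 i) (Real.rpow_nonneg (hδ i).le _))] at h'
      exact h'
    have hdn : (δ i) ^ ((n : ℝ) - d) * (δ i) ^ d = (δ i) ^ n := by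
      rw [← Real.rpow_add (hδ i), sub_add_cancel, Real.rpow_natCast]
    have hpn : 0 < (δ i) ^ n := pow_pos (hδ i) n
    have hpd : 0 < (δ i) ^ d := Real.rpow_pos_of_pos (hδ i) d
    have h1 : (((S i).card : ℝ) * (δ i) ^ d) * (v * (δ i) ^ n)
        ≤ ((2 ^ n / v) * c i) * (v * (δ i) ^ n) := by
      have e1 : (((S i).card : ℝ) * (δ i) ^ d) * (v * (δ i) ^ n)
          = 2 ^ n * (((S i).card : ℝ) * ((δ i / 2) ^ n * v)) * (δ i) ^ d := by
        rw [div_pow]
        field_simp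
      have e2 : ((2 ^ n / v) * c i) * (v * (δ i) ^ n)
          = 2 ^ n * (c i * (δ i) ^ ((n : ℝ) - d)) * (δ i) ^ d := by
        rw [← hdn]
        field_simp
      rw [e1, e2]
      exact mul_le_mul_of_nonneg_right (mul_le_mul_of_nonneg_left hr (by positivity)) hpd.le
    exact le_of_mul_le_mul_right h1 (mul_pos hvp hpn)
  -- the Hausdorff measure
  have hr0 : Tendsto (fun i => ENNReal.ofReal (2 * δ i)) atTop (𝓝 0) := by
    have h := ENNReal.tendsto_ofReal (h0.const_mul 2)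
    simpa using h
  have hle := Measure.hausdorffMeasure_le_liminf_sum d K (fun i => ENNReal.ofReal (2 * δ i)) hr0
    (fun i (x : (S i)) => closedBall (x : EuclideanSpace ℝ (Fin n)) (δ i))
    (Eventually.of_forall (fun i x => by
      exact ediam_le _ (hδ i).le)) (Eventually.of_forall (fun i => by
      intro z hz
      have := hcov i hz
      rw [mem_iUnion₂] at this
      obtain ⟨x, hx, hz⟩ := this
      exact mem_iUnion.2 ⟨⟨x, hx⟩, hz⟩))
  have hb : ∀ i, ∑ x : (S i), ediam (closedBall (x : EuclideanSpace ℝ (Fin n)) (δ i)) ^ d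
      ≤ ENNReal.ofReal (2 ^ d * ((2 ^ n / v) * c i)) := by
    intro i
    calc ∑ x : (S i), ediam (closedBall (x : EuclideanSpace ℝ (Fin n)) (δ i)) ^ d
        ≤ ∑ _x : (S i), (ENNReal.ofReal (2 * δ i)) ^ d := by
          refine Finset.sum_le_sum (fun x _ => ENNReal.rpow_le_rpow ?_ hd)
          exact ediam_le _ (hδ i).le
      _ = ENNReal.ofReal (((S i).card : ℝ) * (2 * δ i) ^ d) := by
          rw [Finset.sum_const, Finset.card_univ, Fintype.card_coe, nsmul_eq_mul,
            ENNReal.ofReal_rpow_of_nonneg (by have := hδ i; positivity) hd,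
            ENNReal.ofReal_mul (by positivity), ENNReal.ofReal_natCast]
      _ ≤ ENNReal.ofReal (2 ^ d * ((2 ^ n / v) * c i)) := by
          refine ENNReal.ofReal_le_ofReal ?_
          rw [Real.mul_rpow (by norm_num) (hδ i).le]
          have := mul_le_mul_of_nonneg_left (hcard i) (Real.rpow_nonneg (by norm_num : (0:ℝ) ≤ 2) d)
          linarith [this]
  have hlim : Tendsto (fun i => ENNReal.ofReal (2 ^ d * ((2 ^ n / v) * c i))) atTop (𝓝 0) := by
    have h := ENNReal.tendsto_ofReal ((hc.const_mul (2 ^ n / v)).const_mul (2 ^ d))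
    simpa using h
  refine le_antisymm ?_ bot_le
  refine hle.trans ?_
  rw [← hlim.liminf_eq]
  exact liminf_le_liminf (Eventually.of_forall hb)

/-- **Hausdorff dimension `n` implies lower Minkowski dimension `n`** for bounded sets. -/
theorem mink_of_dimH (hn : 0 < n) (K : Set (EuclideanSpace ℝ (Fin n)))
    (hK : Bornology.IsBounded K) (hd : dimH K = n) (ε : ℝ) (hε : 0 < ε) :
    ∃ c : ℝ, 0 < c ∧ ∀ δ : ℝ, 0 < δ → δ < 1 →
      ENNReal.ofReal (c * δ ^ ε) ≤ volume (thickening δ K) := by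
  have : Nonempty (Fin n) := ⟨⟨0, hn⟩⟩
  -- a smaller exponent
  obtain ⟨e, he0, heε, hen⟩ : ∃ e : ℝ, 0 < e ∧ e ≤ ε ∧ e ≤ 1 / 2 :=
    ⟨min ε (1 / 2), lt_min hε (by norm_num), min_le_left _ _, min_le_right _ _⟩
  have hn1 : (1 : ℝ) ≤ n := by exact_mod_cast hn
  by_contra hcon
  push Not at hcon
  have hex : ∀ i : ℕ, ∃ δ : ℝ, 0 < δ ∧ δ < 1 ∧
      volume (thickening δ K) < ENNReal.ofReal ((1 / ((i : ℝ) + 1)) * δ ^ ε) := by
    intro i
    obtain ⟨δ, h1, h2, h3⟩ := hcon (1 / ((i : ℝ) + 1)) (by positivity)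
    exact ⟨δ, h1, h2, h3⟩
  choose δ hδ0 hδ1 hv using hex
  set c : ℕ → ℝ := fun i => 1 / ((i : ℝ) + 1) with hcd
  have hcp : ∀ i, 0 < c i := fun i => by rw [hcd]; positivity
  have hct : Tendsto c atTop (𝓝 0) := tendsto_one_div_add_atTop_nhds_zero_nat
  have hv' : ∀ i, volume (thickening (δ i) K) ≤ ENNReal.ofReal (c i * (δ i) ^ e) := by
    intro i
    refine (hv i).le.trans (ENNReal.ofReal_le_ofReal ?_)
    exact mul_le_mul_of_nonneg_left
      (Real.rpow_le_rpow_of_exponent_ge (hδ0 i) (hδ1 i).le heε) (hcp i).le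
  -- the set is nonempty
  have hne : K.Nonempty := by
    by_contra h
    rw [not_nonempty_iff_eq_empty] at h
    rw [h, dimH_empty] at hd
    have : (n : ℝ≥0∞) = 0 := hd.symm
    rw [Nat.cast_eq_zero] at this
    omega
  obtain ⟨x0, hx0⟩ := hne
  -- δ tends to zero
  set v : ℝ := (volume (ball (0 : EuclideanSpace ℝ (Fin n)) 1)).toReal with hvd
  have hvt : volume (ball (0 : EuclideanSpace ℝ (Fin n)) 1) ≠ ⊤ := measure_ball_lt_top.ne
  have hvp : 0 < v := ENNReal.toReal_pos (measure_ball_pos _ _ one_pos).ne' hvt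
  have hlow : ∀ i, (δ i) ^ ((n : ℝ) - e) ≤ (2 ^ n / v) * c i := by
    intro i
    have h := (card_vol hn K (hδ0 i) {x0} (by simpa using hx0) (by
      intro x hx y hy hxy
      rw [Finset.mem_singleton] at hx hy
      exact absurd (hx.trans hy.symm) hxy)).trans (hv' i)
    rw [Finset.card_singleton, Nat.cast_one, one_mul] at h
    have hr : (δ i / 2) ^ n * v ≤ c i * (δ i) ^ e := by
      have h' := ENNReal.toReal_mono ENNReal.ofReal_ne_top h
      rw [ENNReal.toReal_mul, ENNReal.toReal_ofReal (by have := hδ0 i; positivity),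
        ENNReal.toReal_ofReal (mul_nonneg (hcp i).le (Real.rpow_nonneg (hδ0 i).le _))] at h'
      exact h'
    have hdn : (δ i) ^ ((n : ℝ) - e) * (δ i) ^ e = (δ i) ^ n := by
      rw [← Real.rpow_add (hδ0 i), sub_add_cancel, Real.rpow_natCast]
    have hpe : 0 < (δ i) ^ e := Real.rpow_pos_of_pos (hδ0 i) e
    have h1 : (δ i) ^ ((n : ℝ) - e) * (v * (δ i) ^ e) ≤ ((2 ^ n / v) * c i) * (v * (δ i) ^ e) := by
      have e1 : (δ i) ^ ((n : ℝ) - e) * (v * (δ i) ^ e) = 2 ^ n * ((δ i / 2) ^ n * v) := by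
        rw [div_pow, ← hdn]
        field_simp
      have e2 : ((2 ^ n / v) * c i) * (v * (δ i) ^ e) = 2 ^ n * (c i * (δ i) ^ e) := by
        field_simp
      rw [e1, e2]
      exact mul_le_mul_of_nonneg_left hr (by positivity)
    exact le_of_mul_le_mul_right h1 (mul_pos hvp hpe)
  have hpos : 0 < (n : ℝ) - e := by linarith
  have hδt : Tendsto δ atTop (𝓝 0) := by
    have h1 : Tendsto (fun i => (2 ^ n / v) * c i) atTop (𝓝 0) := by
      simpa using hct.const_mul (2 ^ n / v)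
    have h2 : Tendsto (fun i => (δ i) ^ ((n : ℝ) - e)) atTop (𝓝 0) :=
      squeeze_zero (fun i => Real.rpow_nonneg (hδ0 i).le _) hlow h1
    have h3 := h2.rpow_const (p := ((n : ℝ) - e)⁻¹) (Or.inr (by positivity))
    rw [Real.zero_rpow (by positivity)] at h3
    refine h3.congr (fun i => ?_)
    rw [← Real.rpow_mul (hδ0 i).le, mul_inv_cancel₀ hpos.ne', Real.rpow_one]
  have h0 : μH[(n : ℝ) - e] K = 0 :=
    hm_le hn K hK ((n : ℝ) - e) hpos.le δ hδ0 hδt c (fun i => (hcp i).le) hct (by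
      intro i
      rw [sub_sub_cancel]
      exact hv' i)
  have htop : μH[(n : ℝ) - e] K = ⊤ := by
    have hlt : ((Real.toNNReal ((n : ℝ) - e) : ℝ≥0) : ℝ≥0∞) < dimH K := by
      rw [hd]
      have h : Real.toNNReal ((n : ℝ) - e) < (n : ℝ≥0) := by
        rw [← NNReal.coe_lt_coe, Real.coe_toNNReal _ hpos.le, NNReal.coe_natCast]
        linarith
      have h2 := ENNReal.coe_lt_coe.2 h
      rw [ENNReal.coe_natCast] at h2
      exact h2
    have h3 := hausdorffMeasure_of_lt_dimH hlt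
    rw [Real.coe_toNNReal _ hpos.le] at h3
    exact h3
  rw [h0] at htop
  exact ENNReal.zero_ne_top htop

end Pool.Agent.Helper40.Mink
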