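import Pool.Agent.Helper89.LS.MainE
import Pool.Agent.Helper40.Mink.Mink

/-! The Kakeya problem in both forms (Hausdorff, lower Minkowski) from the exact statement. -/

open MeasureTheory Metric Set

namespace Pool.Agent.Helper40.Mink

/-- The exact form of the calculus implies, for a bounded Kakeya set of `ℝ ^ n`, that the Hausdorff
dimension and the lower Minkowski dimension are `n`. -/
theorem kakeya_both (n : ℕ) (hn : 2 ≤ n) (hE : Pool.Agent.Helper89.LS.EK (n - 1))
    (K : Set (EuclideanSpace ℝ (Fin n))) (hb : Bornology.IsBounded K)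
    (hK : ∀ e : EuclideanSpace ℝ (Fin n), ‖e‖ = 1 →
      ∃ p, ∀ t : ℝ, 0 ≤ t → t ≤ 1 → p + t • e ∈ K) :
    dimH K = n ∧ ∀ ε : ℝ, 0 < ε → ∃ c : ℝ, 0 < c ∧ ∀ δ : ℝ, 0 < δ → δ < 1 →
      ENNReal.ofReal (c * δ ^ ε) ≤ volume (thickening δ K) := by
  have h := Pool.Agent.Helper89.LS.kakeya_of_ek n hn hE K hK
  exact ⟨h, mink_of_dimH (by omega) K hb h⟩

end Pool.Agent.Helper40.Mink
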